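import Pool.Agent.helper69.AD.GS3
import Pool.Agent.helper18.AG.BD8

/-! Module BR3 of the project ad (MP_a29257_gt): past bending is a left earthquake. -/

open scoped MatrixGroups LinearAlgebra.Projectivization
open Matrix UpperHalfPlane

namespace AdSBend

open LeafSystem

theorem BR3_peq_symm {g h : SL(2, ℝ)} (e : PEq g h) : PEq h g := by
  rcases e with rfl | rfl
  · exact Or.inl rfl
  · exact Or.inr (neg_neg h).symm

theorem BR3_peq_trans {g h k : SL(2, ℝ)} (e : PEq g h) (e' : PEq h k) : PEq g k := by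
  rcases e with rfl | rfl
  · exact e'
  · rcases e' with rfl | rfl
    · exact Or.inr rfl
    · exact Or.inl (neg_neg k)

theorem BR3_peq_mul {g h g' h' : SL(2, ℝ)} (e : PEq g h) (e' : PEq g' h') :
    PEq (g * g') (h * h') := by
  rcases e with rfl | rfl <;> rcases e' with rfl | rfl
  · exact Or.inl rfl
  · exact Or.inr (mul_neg _ _)
  · exact Or.inr (neg_mul _ _)
  · exact Or.inl (neg_mul_neg _ _)

theorem BR3_trc_inv (g : SL(2, ℝ)) : trc g⁻¹ = trc g := by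
  unfold trc
  rw [Matrix.SpecialLinearGroup.coe_inv, Matrix.adjugate_fin_two]
  simp [add_comm]

/-- two elements that agree at three points -/
theorem BR3_three (h5 : BD5_stmt) {g h : SL(2, ℝ)} {x y z : Bd} (hxy : x ≠ y) (hyz : y ≠ z)
    (hzx : z ≠ x) (h1 : g • x = h • x) (h2 : g • y = h • y) (h3 : g • z = h • z) : PEq g h := by
  have k := h5 (h⁻¹ * g) x y z hxy hyz hzx (by rw [mul_smul, h1, inv_smul_smul])
    (by rw [mul_smul, h2, inv_smul_smul]) (by rw [mul_smul, h3, inv_smul_smul])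
  have := BR3_peq_mul (Or.inl rfl : PEq h h) k
  rwa [mul_inv_cancel_left, mul_one] at this

/-- the endpoints of a leaf near `z` are visible from `z` -/
theorem BR3_vis (h4 : BD4_stmt) (hPT1 : PT1_stmt) (hPT3 : PT3_stmt) (hPN1 : PN1_stmt)
    {Γ : Subgroup SL(2, ℝ)} (hΓ : IsClosedSurfaceGroup Γ) (S : LeafSystem Γ) {p : Bd × Bd}
    (hp : p ∈ S.L) {z : ℍ} (hz : S.Near p z) :
    (∀ s ∈ S.L, ¬ SepIdeal s.1 s.2 z p.1) ∧ (∀ s ∈ S.L, ¬ SepIdeal s.1 s.2 z p.2) := by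
  obtain ⟨c1, c2, c3, c4, c5, c6⟩ := h4
  obtain ⟨hoff, hfr, hmin⟩ := hz
  have hfr0 : side z p.1 p.2 < 0 := hfr
  have hside : ∀ x y : Bd, side z y x = - side z x y := fun x y => (hPT1 1 z x y).2.2.2
  have key : ∀ s ∈ S.L, side z s.1 s.2 < 0 → ¬ Cyc s.1 p.1 s.2 ∧ ¬ Cyc s.1 p.2 s.2 := by
    intro s hs hsz
    by_cases e1 : s = p
    · subst e1
      exact ⟨fun h => (c1 _ _ _ h).1 rfl, fun h => (c1 _ _ _ h).2.1 rfl⟩
    by_cases e2 : s = (p.2, p.1)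
    · subst e2
      exact ⟨fun h => (c1 _ _ _ h).2.1 rfl, fun h => (c1 _ _ _ h).1 rfl⟩
    rcases hPN1 Γ hΓ S p hp s hs e1 e2 with h | h | h | h
    · exact absurd h (hmin s hs hsz)
    · obtain ⟨k1, k2⟩ := h
      refine ⟨fun h => c3 _ _ _ h (c2 _ _ _ k1), fun h => ?_⟩
      exact c3 _ _ _ h (c5 _ _ _ _ k1 k2).2
    · obtain ⟨k1, k2⟩ := h
      refine ⟨fun h => c3 _ _ _ h (c2 _ _ _ k2), fun h => ?_⟩
      exact c3 _ _ _ h (c2 _ _ _ (c5 _ _ _ _ k1 k2).2)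
    · exfalso
      have h1 := hPT3.2 (p.2, p.1) (s.2, s.1) z h (by simp only; rw [hside]; linarith)
      simp only at h1
      rw [hside] at h1
      linarith
  have key2 : ∀ c, (∀ s ∈ S.L, side z s.1 s.2 < 0 → ¬ Cyc s.1 c s.2) →
      ∀ s ∈ S.L, ¬ SepIdeal s.1 s.2 z c := by
    intro c hc s hs hsep
    rcases hsep with ⟨h1, h2⟩ | ⟨h1, h2⟩
    · exact hc _ (S.swap s hs) (by simp only; rw [hside]; linarith) h2
    · exact hc s hs h1 h2
  exact ⟨key2 _ fun s hs h => (key s hs h).1, key2 _ fun s hs h => (key s hs h).2⟩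

/-- every point off the leaves is near some leaf -/
theorem BR3_near {Γ : Subgroup SL(2, ℝ)} (hΓ : IsClosedSurfaceGroup Γ) (S : LeafSystem Γ)
    (hPN3 : PN3_stmt) (hPN6 : PN6_stmt) (hne : S.L.Nonempty) {z : ℍ} (hz : S.OffPt z) :
    ∃ p ∈ S.L, S.Near p z := by
  obtain ⟨p₀, hp₀⟩ := hne
  obtain ⟨w, hw⟩ := (hPN3 Γ hΓ S p₀ hp₀).1
  by_cases h : S.SamePl w z
  · exact ⟨p₀, hp₀, (hPN3 Γ hΓ S p₀ hp₀).2.2.2.1 w z hw hz h⟩
  · obtain ⟨p, v, hv, hA, -⟩ := (hPN6 Γ hΓ S).2 w z hw.1 hz h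
    have := ((hPN3 Γ hΓ S p hA.1).2.2.2.2 v z hv hz hA).2
    exact ⟨(p.2, p.1), S.swap p hA.1, this⟩

/-- three visible points -/
theorem BR3_triple (h4 : BD4_stmt) (hPT1 : PT1_stmt) (hPT3 : PT3_stmt) (hPN1 : PN1_stmt)
    (hPN4 : PN4_stmt) {Γ : Subgroup SL(2, ℝ)} (hΓ : IsClosedSurfaceGroup Γ) (S : LeafSystem Γ)
    {p q : Bd × Bd} (hpq : S.CoPl p q) {z : ℍ} (hz : S.Near p z) :
    (∀ s ∈ S.L, ¬ SepIdeal s.1 s.2 z p.1) ∧ (∀ s ∈ S.L, ¬ SepIdeal s.1 s.2 z p.2) ∧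
    (∀ s ∈ S.L, ¬ SepIdeal s.1 s.2 z q.1) ∧ p.1 ≠ p.2 ∧ p.2 ≠ q.1 ∧ q.1 ≠ p.1 := by
  have hq : S.Near q z := (hPN4 Γ hΓ S p hpq.1 q hpq.2.1 z hz).2 (Or.inr hpq)
  have h1 := BR3_vis h4 hPT1 hPT3 hPN1 hΓ S hpq.1 hz
  have h2 := BR3_vis h4 hPT1 hPT3 hPN1 hΓ S hpq.2.1 hq
  exact ⟨h1.1, h1.2, h2.1, h4.1 _ _ _ hpq.2.2.1.1⟩

/-- the jump across a leaf with positive weight -/
theorem BR3_jump (h2 : BD2_stmt) (h6 : BD6_stmt) (h8 : BD8_stmt) (hTW : TW1_stmt)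
    {P : Bd × Bd} {g T : SL(2, ℝ)} {w : ℝ} (hw : 0 < w) (hg : Attracts g P)
    (hT1 : T • P.1 = P.1) (hT2 : T • P.2 = P.2) (htr : |trc T| = 2 * Real.cosh w) {c : Bd}
    (hc : Cyc P.1 c P.2) (hdir : ¬ Cyc (T • c) c P.1) : PEq T (twS g (-(2 * w))) := by
  obtain ⟨b1, b2, b3, b4, b5, b6, b7, b8⟩ := h8
  obtain ⟨w1, w2, w3, w4⟩ := hTW
  have hne : P.1 ≠ P.2 := hg.1
  have hch : 1 < Real.cosh w := Real.one_lt_cosh.2 hw.ne'
  have h2t : 2 < |trc T| := by rw [htr]; linarith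
  have hnT : ¬ PEq T 1 := by
    intro h
    have e1 : trc (1 : SL(2, ℝ)) = 2 := by
      unfold trc
      simp
      norm_num
    have : |trc T| = 2 := by
      rcases h with h | h
      · rw [h, e1]; norm_num
      · rw [h, BD8_trc_neg, e1]; norm_num
    linarith
  -- `T` attracts the second point
  have hat : Attracts T (P.2, P.1) := by
    rcases b5 T P.1 P.2 hne hT1 hT2 hnT with h | h
    · exfalso
      have k := b7 T (P.1, P.2) h
      have k2 := k.2.2.2 c hc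
      -- k2 : Cyc P.1 c (T⁻¹ • c)
      have k3 : Cyc (T • P.1) (T • c) (T • (T⁻¹ • c)) := (h2 T _ _ _).2 k2
      rw [hT1, smul_inv_smul] at k3
      exact hdir (by
        have : Cyc P.1 (T • c) c := k3
        unfold Cyc at this ⊢
        nlinarith [this])
    · exact h
  have hat' : Attracts T⁻¹ P := b7 T (P.2, P.1) hat
  obtain ⟨F, hF⟩ := h6.1 P hne
  have e1 := (b2 T⁻¹ F P hat' hF).1
  have hl := (b2 T⁻¹ F P hat' hF).2
  have e2 := (w1 g F P (len T⁻¹) hg hF).1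
  have e3 := (w4 T⁻¹ (by rw [BR3_trc_inv]; exact h2t)).2.2.2.2
  rw [BR3_trc_inv, htr] at e3
  have e4 : w = len T⁻¹ / 2 := by
    have h := mul_left_cancel₀ (two_ne_zero) e3
    exact Real.cosh_injOn (Set.mem_Ici.2 hw.le) (Set.mem_Ici.2 (by linarith)) h
  have e5 : len T⁻¹ = 2 * w := by linarith
  have e6 : PEq (pos T⁻¹) T⁻¹ := by
    unfold pos
    split_ifs
    · exact Or.inl rfl
    · exact Or.inr rfl
  have e7 : PEq T⁻¹ (twS g (2 * w)) := by
    rw [← e5, e2, ← e1]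
    exact BR3_peq_symm e6
  have e8 := BD8_inv_peq e7
  have h2g : 2 < |trc g| := (b4 g).2 ⟨P, hg⟩
  rw [inv_inv, (w3 g (2 * w) 0 h2g).2.2.2.2.2.2] at e8
  exact e8

theorem BR3_rep_inv {Γ : Subgroup SL(2, ℝ)} {r : SL(2, ℝ) → SL(2, ℝ)} (hr : IsPRep Γ r)
    {γ δ : SL(2, ℝ)} (hγ : γ ∈ Γ) (hδ : δ ∈ Γ) (h : PEq γ δ⁻¹) : PEq (r γ) (r δ)⁻¹ := by
  have e1 : PEq (r 1) (r 1 * r 1) := hr 1 Γ.one_mem 1 Γ.one_mem 1 Γ.one_mem
    (by rw [mul_one]; exact Or.inl rfl)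
  have e2 : PEq 1 (r 1) := by
    have := BR3_peq_mul (Or.inl rfl : PEq (r 1)⁻¹ (r 1)⁻¹) e1
    rwa [inv_mul_cancel, inv_mul_cancel_left] at this
  have e3 : PEq 1 (γ * δ) := by
    have := BR3_peq_mul h (Or.inl rfl : PEq δ δ)
    rw [inv_mul_cancel] at this
    exact BR3_peq_symm this
  have e4 : PEq (r 1) (r γ * r δ) := hr γ hγ δ hδ 1 Γ.one_mem e3
  have e5 : PEq 1 (r γ * r δ) := BR3_peq_trans e2 e4
  have e6 := BR3_peq_mul e5 (Or.inl rfl : PEq (r δ)⁻¹ (r δ)⁻¹)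
  rw [one_mul, mul_inv_cancel_right] at e6
  exact BR3_peq_symm e6

theorem BR3 (h2 : BD2_stmt) (h4 : BD4_stmt) (h5 : BD5_stmt) (h6 : BD6_stmt) (h8 : BD8_stmt)
    (h11 : BD11_stmt) (hPT1 : PT1_stmt) (hPT3 : PT3_stmt) (hGM1 : GM1_stmt) (hGM2 : GM2_stmt)
    (hPN1 : PN1_stmt) (hPN3 : PN3_stmt) (hPN4 : PN4_stmt) (hPN6 : PN6_stmt) (hPM1 : PM1_stmt)
    (hTW1 : TW1_stmt) : BR3_stmt := by
  intro Γ hΓ S hco hne M l r hl hr hB
  obtain ⟨N, hN1, hN2⟩ := hB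
  set f := M.left.bd with hf
  set f' := M.right.bd with hf'
  obtain ⟨q1, q2, q3, q4, q5, q6⟩ := h11 Γ f r hr
  have hfinj : ∀ x y, x ≠ y → f x ≠ f y := fun x y h e => h (f.injective e)
  -- the planes
  have hoff : ∀ z, S.OffPt z → l.Off z := fun z hz x y hw => hz (x, y) (hl x y hw)
  have hvis : ∀ z, S.OffPt z → ∀ c, (∀ s ∈ S.L, ¬ SepIdeal s.1 s.2 z c) →
      N z • f c = f' c := fun z hz c hc =>
    (hN1 z (hoff z hz)).2 c fun x y hw => hc (x, y) (hl x y hw)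
  -- the generators
  have hgen : ∀ p ∈ S.L, IsGen Γ p (gen Γ p) := fun p hp => hGM1 Γ hΓ p (S.closed p hp)
  have hatt : ∀ p ∈ S.L, Attracts (r (gen Γ p)) (f p.1, f p.2) := fun p hp =>
    q5 _ (hgen p hp).1 p (hgen p hp).2.1
  have h2t : ∀ p ∈ S.L, 2 < |trc (r (gen Γ p))| := fun p hp => (h8.2.2.2.1 _).2 ⟨_, hatt p hp⟩
  -- the same plaque
  have hsame : ∀ z z', S.OffPt z → S.OffPt z' → S.SamePl z z' → PEq (N z') (N z) := by
    intro z z' hz hz' hzz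
    obtain ⟨p, hp, hpz⟩ := BR3_near hΓ S hPN3 hPN6 hne hz
    obtain ⟨q, hpq⟩ := hco p hp
    have hpz' : S.Near p z' := (hPN3 Γ hΓ S p hp).2.2.2.1 z z' hpz hz' hzz
    obtain ⟨a1, a2, a3, d1, d2, d3⟩ := BR3_triple h4 hPT1 hPT3 hPN1 hPN4 hΓ S hpq hpz
    obtain ⟨b1, b2, b3, -⟩ := BR3_triple h4 hPT1 hPT3 hPN1 hPN4 hΓ S hpq hpz'
    refine BR3_three h5 (hfinj _ _ d1) (hfinj _ _ d2) (hfinj _ _ d3) ?_ ?_ ?_
    · rw [hvis z hz _ a1, hvis z' hz' _ b1]
    · rw [hvis z hz _ a2, hvis z' hz' _ b2]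
    · rw [hvis z hz _ a3, hvis z' hz' _ b3]
  -- adjacent plaques
  have hjump : ∀ z z' p, S.OffPt z → S.OffPt z' → S.Across p z z' →
      PEq (N z') (N z * twS (r (gen Γ p)) (-(2 * l.w p.1 p.2))) := by
    intro z z' p hz hz' hA
    have hp := hA.1
    obtain ⟨hpz, hpz'⟩ := (hPN3 Γ hΓ S p hp).2.2.2.2 z z' hz hz' hA
    obtain ⟨q, hpq⟩ := hco p hp
    obtain ⟨q', hpq'⟩ := hco (p.2, p.1) (S.swap p hp)
    obtain ⟨a1, a2, a3, d1, d2, d3⟩ := BR3_triple h4 hPT1 hPT3 hPN1 hPN4 hΓ S hpq hpz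
    obtain ⟨b2, b1, b3, -⟩ := BR3_triple h4 hPT1 hPT3 hPN1 hPN4 hΓ S hpq' hpz'
    simp only at b1 b2
    have v1 := hvis z hz _ a1
    have v2 := hvis z hz _ a2
    have v3 := hvis z hz _ a3
    have v1' := hvis z' hz' _ b1
    have v2' := hvis z' hz' _ b2
    have v3' := hvis z' hz' _ b3
    rcases eq_or_lt_of_le (l.nonneg p.1 p.2) with hw | hw
    · -- weight zero
      rw [← hw, mul_zero, neg_zero, (hTW1.2.2.1 _ 0 0 (h2t p hp)).2.2.2.2.2.1, mul_one]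
      have v3'' : N z' • f q.1 = f' q.1 := by
        refine (hN1 z' (hoff z' hz')).2 _ fun x y hxy hsep => ?_
        have hxS := hl x y hxy
        refine a3 (x, y) hxS ?_
        have hns : ¬ SepPts x y z z' := by
          intro h
          rcases hA.2.2.2 (x, y) hxS h with e | e
          · rw [← e] at hw; exact hxy hw.symm
          · have : l.w x y = l.w p.1 p.2 := by
              rw [l.symm]
              have e1 : x = p.2 := congrArg Prod.fst e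
              have e2 : y = p.1 := congrArg Prod.snd e
              rw [e1, e2]
            exact hxy (this.trans hw.symm)
        have o1 := hz (x, y) hxS
        have o2 := hz' (x, y) hxS
        simp only at o1 o2
        unfold SepPts at hns
        rcases hsep with ⟨s1, s2⟩ | ⟨s1, s2⟩
        · refine Or.inl ⟨?_, s2⟩
          rcases lt_or_gt_of_ne o1 with k | k
          · exact absurd (mul_neg_of_neg_of_pos k s1) hns
          · exact k
        · refine Or.inr ⟨?_, s2⟩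
          rcases lt_or_gt_of_ne o1 with k | k
          · exact k
          · exact absurd (mul_neg_of_pos_of_neg k s1) hns
      refine BR3_three h5 (hfinj _ _ d1) (hfinj _ _ d2) (hfinj _ _ d3) ?_ ?_ ?_
      · rw [v1, v1']
      · rw [v2, v2']
      · rw [v3, v3'']
    · -- positive weight
      have hadj : l.AdjacentAlong p.1 p.2 z z' := by
        refine ⟨hw.ne', mul_neg_of_neg_of_pos hA.2.1 hA.2.2.1, ?_⟩
        intro x y hxy hs
        rcases hA.2.2.2 (x, y) (hl x y hxy) hs with e | e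
        · exact Or.inl ⟨congrArg Prod.fst e, congrArg Prod.snd e⟩
        · exact Or.inr ⟨congrArg Prod.fst e, congrArg Prod.snd e⟩
      have htr := hN2 z z' p.1 p.2 (hoff z hz) (hoff z' hz') hadj
      have htr' : |trc ((N z)⁻¹ * N z')| = 2 * Real.cosh (l.w p.1 p.2) := by
        rw [← htr]
        unfold trc
        rw [Matrix.trace_fin_two]
      have hcyc : Cyc p.1 q'.1 p.2 := by
        have := hpq'.2.2.1.1
        simp only at this
        exact h4.2.1 _ _ _ this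
      have hsup := (hN1 z (hoff z hz)).1.2 p.1 q'.1 v1
      have k := BR3_jump h2 h6 h8 hTW1 (P := (f p.1, f p.2)) (T := (N z)⁻¹ * N z')
        (c := f q'.1) hw (hatt p hp) (by
          simp only
          rw [mul_smul, v1', ← v1, inv_smul_smul]) (by
          simp only
          rw [mul_smul, v2', ← v2, inv_smul_smul]) htr' ((q1 _ _ _).2 hcyc) (by
          intro h
          apply hsup
          have h' := (h2 (N z) _ _ _).2 h
          rw [mul_smul, smul_inv_smul, v3'] at h'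
          simp only at h'
          rw [v1] at h'
          exact h')
      have k2 := BR3_peq_mul (Or.inl rfl : PEq (N z) (N z)) k
      rwa [mul_inv_cancel_left] at k2
  -- the plaque map
  obtain ⟨p₀, hp₀⟩ := hne
  obtain ⟨z₀, hz₀⟩ := (hPN3 Γ hΓ S p₀ hp₀).1
  have hE : ∀ p ∈ S.L, twS (r (gen Γ (p.2, p.1))) (-(2 * l.w p.2 p.1)) =
      (twS (r (gen Γ p)) (-(2 * l.w p.1 p.2)))⁻¹ := by
    intro p hp
    have g1 := (hGM2 Γ hΓ).2.2 p (S.closed p hp)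
    have g2 : PEq (r (gen Γ (p.2, p.1))) (r (gen Γ p))⁻¹ :=
      BR3_rep_inv q6 (hgen _ (S.swap p hp)).1 (hgen p hp).1 g1
    have t1 := hTW1.2.2.1 (r (gen Γ p)) (-(2 * l.w p.1 p.2)) 0 (h2t p hp)
    have h2i : 2 < |trc (r (gen Γ p))⁻¹| := by rw [BR3_trc_inv]; exact h2t p hp
    have t2 := hTW1.2.2.1 (r (gen Γ p))⁻¹ (-(2 * l.w p.1 p.2)) 0 h2i
    rw [l.symm p.2 p.1, t1.2.2.2.2.2.2, ← t1.1]
    rcases g2 with g2 | g2
    · rw [g2]
    · rw [g2, t2.2.2.1]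
  obtain ⟨A, hA, hA0⟩ := hPM1 Γ hΓ S (fun p => twS (r (gen Γ p)) (-(2 * l.w p.1 p.2)))
    (fun p hp => hE p hp) z₀ hz₀.1
  have hPM : S.IsPlaqueMap (fun p => twS (r (gen Γ p)) (-(2 * l.w p.1 p.2)))
      (fun z => N z₀ * A z) := by
    refine ⟨fun z z' h h' hs => by simp only; rw [hA.1 z z' h h' hs], ?_⟩
    intro z z' p h h' hs
    simp only
    rw [hA.2 z z' p h h' hs, mul_assoc]
  have hchain : ∀ z, S.OffPt z → PEq (N z) (N z₀ * A z) := by
    intro z hz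
    have hch := (hPN6 Γ hΓ S).1 z₀ z hz₀.1 hz
    clear hz
    induction hch with
    | refl => rw [hA0, mul_one]; exact Or.inl rfl
    | tail _ hst ih =>
      obtain ⟨o1, o2, hst⟩ := hst
      rcases hst with hst | ⟨p, hst⟩
      · rw [← hA.1 _ _ o1 o2 hst]
        exact BR3_peq_trans (hsame _ _ o1 o2 hst) ih
      · rw [hA.2 _ _ p o1 o2 hst, ← mul_assoc]
        exact BR3_peq_trans (hjump _ _ p o1 o2 hst) (BR3_peq_mul ih (Or.inl rfl))
  refine ⟨fun z => N z₀ * A z, hPM, ?_⟩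
  intro z hz c hc
  rw [← BD8_peq_smul (hchain z hz), hvis z hz c hc]

end AdSBend
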