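import Pool.Agent.helper69.AD.GS5

/-! Module FA0 of the project ad (MP_a29257_gt): relations between the standard matrices. -/

open scoped MatrixGroups LinearAlgebra.Projectivization
open Matrix UpperHalfPlane

namespace AdSBend

theorem FA0_Dm_mul (s t : ℝ) : Dm s * Dm t = Dm (s + t) := by
  apply Subtype.ext
  rw [Matrix.SpecialLinearGroup.coe_mul]
  ext i j
  fin_cases i <;> fin_cases j <;>
    simp [Dm, Matrix.mul_apply, Fin.sum_univ_two, ← Real.exp_add] <;> ring_nf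

theorem FA0_Dm_zero : Dm 0 = 1 := by
  apply Subtype.ext
  ext i j
  fin_cases i <;> fin_cases j <;> simp [Dm]

theorem FA0_Em_mul (s t : ℝ) : Em s * Em t = Em (s + t) := by
  apply Subtype.ext
  rw [Matrix.SpecialLinearGroup.coe_mul]
  ext i j
  fin_cases i <;> fin_cases j <;>
    simp [Em, Matrix.mul_apply, Fin.sum_univ_two, add_div, Real.cosh_add, Real.sinh_add] <;> ring

theorem FA0_Em_zero : Em 0 = 1 := by
  apply Subtype.ext
  ext i j
  fin_cases i <;> fin_cases j <;> simp [Em]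

theorem FA0_Rm_Rm : Rm * Rm = -1 := by
  apply Subtype.ext
  rw [Matrix.SpecialLinearGroup.coe_mul]
  ext i j
  fin_cases i <;> fin_cases j <;> simp [Rm, Matrix.mul_apply, Fin.sum_univ_two]

theorem FA0_Rm_Dm (s : ℝ) : Rm * Dm s = Dm (-s) * Rm := by
  apply Subtype.ext
  rw [Matrix.SpecialLinearGroup.coe_mul, Matrix.SpecialLinearGroup.coe_mul]
  ext i j
  fin_cases i <;> fin_cases j <;>
    simp [Rm, Dm, Matrix.mul_apply, Fin.sum_univ_two, neg_div]

theorem FA0_Rm_Em (s : ℝ) : Rm * Em s = Em (-s) * Rm := by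
  apply Subtype.ext
  rw [Matrix.SpecialLinearGroup.coe_mul, Matrix.SpecialLinearGroup.coe_mul]
  ext i j
  fin_cases i <;> fin_cases j <;>
    simp [Rm, Em, Matrix.mul_apply, Fin.sum_univ_two, neg_div]

theorem FA0 : FA0_stmt := by
  refine ⟨FA0_Dm_mul, FA0_Dm_zero, ?_, FA0_Em_mul, FA0_Em_zero, ?_, FA0_Rm_Rm, ?_,
    FA0_Rm_Dm, FA0_Rm_Em⟩
  · intro s
    rw [inv_eq_iff_mul_eq_one, FA0_Dm_mul, add_neg_cancel, FA0_Dm_zero]
  · intro s
    rw [inv_eq_iff_mul_eq_one, FA0_Em_mul, add_neg_cancel, FA0_Em_zero]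
  · rw [inv_eq_iff_mul_eq_one, mul_neg, FA0_Rm_Rm, neg_neg]

end AdSBend
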